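import Mathlib

set_option autoImplicit false

namespace Pool.Agent.Results.MP_a9ba8c_co.Fractional

open Finset

variable {V : Type*} [DecidableEq V]

/-- Exploring an inclusion-minimal cover `T` of `F`. -/
theorem explore (F : Finset (Finset V)) (T : Finset V) (k : ℕ)
    (hk : ∀ A ∈ F, A.card = k) (hint : ∀ A ∈ F, ∀ B ∈ F, (A ∩ B).Nonempty)
    (hT : ∀ A ∈ F, (A ∩ T).Nonempty) (hmin : ∀ Z, Z ⊂ T → ∃ B ∈ F, Disjoint B Z) :
    ∀ Z : Finset V, Z ⊂ T → ∃ P : Finset (V × V), P.card ≤ Z.card * (k - 1) ∧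
      (∀ p ∈ P, p.1 ≠ p.2) ∧
      ∀ A ∈ F, Disjoint A (T \ Z) → ∃ p ∈ P, p.1 ∈ A ∧ p.2 ∈ A := by
  intro Z
  induction Z using Finset.induction_on with
  | empty =>
    intro _
    refine ⟨∅, by simp, by simp, ?_⟩
    intro A hA hdis
    exfalso
    obtain ⟨x, hx⟩ := hT A hA
    rw [mem_inter] at hx
    rw [sdiff_empty] at hdis
    exact (Finset.disjoint_left.1 hdis hx.1) hx.2
  | insert x Z hxZ ih =>
    intro hZT
    have hxT : x ∈ T := hZT.1 (mem_insert_self x Z)
    obtain ⟨P, hPc, hPne, hP⟩ := ih ((ssubset_insert hxZ).trans hZT)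
    obtain ⟨B, hB, hBZ⟩ := hmin _ hZT
    have hxB : x ∉ B := fun h => (Finset.disjoint_left.1 hBZ h) (mem_insert_self x Z)
    refine ⟨P ∪ (B \ T).image (fun y => (x, y)), ?_, ?_, ?_⟩
    · have h1 : (B \ T).card + (B ∩ T).card = k := by
        rw [Finset.card_sdiff_add_card_inter, hk B hB]
      have h2 : 0 < (B ∩ T).card := Finset.card_pos.2 (hT B hB)
      calc (P ∪ (B \ T).image (fun y => (x, y))).card
          ≤ P.card + ((B \ T).image (fun y => (x, y))).card := card_union_le _ _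
        _ ≤ Z.card * (k - 1) + (k - 1) := by
            have := (card_image_le (s := B \ T) (f := fun y => (x, y)))
            omega
        _ = (insert x Z).card * (k - 1) := by
            rw [card_insert_of_notMem hxZ]; ring
    · intro p hp
      rcases mem_union.1 hp with hp | hp
      · exact hPne p hp
      · obtain ⟨y, hy, rfl⟩ := mem_image.1 hp
        intro h
        simp only at h
        subst h
        exact hxB (mem_sdiff.1 hy).1
    · intro A hA hdis
      by_cases hxA : x ∈ A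
      · obtain ⟨y, hy⟩ := hint A hA B hB
        rw [mem_inter] at hy
        have hyT : y ∉ T := by
          intro hyT
          have h1 : y ∉ insert x Z := Finset.disjoint_left.1 hBZ hy.2
          exact (Finset.disjoint_left.1 hdis hy.1) (mem_sdiff.2 ⟨hyT, h1⟩)
        exact ⟨(x, y), mem_union_right _ (mem_image.2 ⟨y, mem_sdiff.2 ⟨hy.2, hyT⟩, rfl⟩),
          hxA, hy.1⟩
      · have : Disjoint A (T \ Z) := by
          rw [Finset.disjoint_left]
          intro y hyA hy
          rw [mem_sdiff] at hy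
          refine (Finset.disjoint_left.1 hdis hyA) (mem_sdiff.2 ⟨hy.1, ?_⟩)
          intro h
          rcases mem_insert.1 h with rfl | h
          · exact hxA hyA
          · exact hy.2 h
        obtain ⟨p, hp, hp'⟩ := hP A hA this
        exact ⟨p, mem_union_left _ hp, hp'⟩

/-- If `F` is intersecting, `k`-uniform, `k ≥ 2` and `k (k - 1) + 1 ≤ n`, then at most `n` pairs
of points meet the requirement that every member of `F` contains one of the pairs. -/
theorem exists_pairs (n k : ℕ) (F : Finset (Finset (Fin n))) (hk2 : 2 ≤ k)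
    (hk : ∀ A ∈ F, A.card = k) (hint : ∀ A ∈ F, ∀ B ∈ F, (A ∩ B).Nonempty)
    (hn : k * (k - 1) + 1 ≤ n) :
    ∃ P : Finset (Fin n × Fin n), P.card ≤ n ∧ (∀ p ∈ P, p.1 ≠ p.2) ∧
      ∀ A ∈ F, ∃ p ∈ P, p.1 ∈ A ∧ p.2 ∈ A := by
  rcases F.eq_empty_or_nonempty with rfl | ⟨A₀, hA₀⟩
  · exact ⟨∅, by simp, by simp, by simp⟩
  -- a minimal cover inside `A₀`
  have hcov : (A₀.powerset.filter (fun T => ∀ A ∈ F, (A ∩ T).Nonempty)).Nonempty :=
    ⟨A₀, by simpa using fun A hA => hint A hA A₀ hA₀⟩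
  obtain ⟨T, hTm, hTmin⟩ := Finset.exists_min_image _ Finset.card hcov
  rw [mem_filter, mem_powerset] at hTm
  obtain ⟨hTA, hT⟩ := hTm
  have hTk : T.card ≤ k := (card_le_card hTA).trans (hk A₀ hA₀).le
  have hmin : ∀ Z, Z ⊂ T → ∃ B ∈ F, Disjoint B Z := by
    intro Z hZ
    by_contra hcon
    push Not at hcon
    have hZc : ∀ A ∈ F, (A ∩ Z).Nonempty := by
      intro A hA
      have := hcon A hA
      rwa [Finset.not_disjoint_iff_nonempty_inter] at this
    have := hTmin Z (by
      rw [mem_filter, mem_powerset]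
      exact ⟨hZ.1.trans hTA, hZc⟩)
    exact absurd (card_lt_card hZ) (not_lt.2 this)
  obtain ⟨r, hr⟩ := hT A₀ hA₀
  have hrT : r ∈ T := (mem_inter.1 hr).2
  by_cases hB : ∃ B ∈ F, r ∉ B
  · obtain ⟨B, hB, hrB⟩ := hB
    obtain ⟨P, hPc, hPne, hP⟩ := explore F T k hk hint hT hmin (T.erase r) (erase_ssubset hrT)
    refine ⟨P ∪ B.image (fun y => (r, y)), ?_, ?_, ?_⟩
    · have h1 : (P ∪ B.image (fun y => (r, y))).card ≤ P.card + B.card :=
        (card_union_le _ _).trans (Nat.add_le_add_left card_image_le _)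
      rw [hk B hB] at h1
      rw [card_erase_of_mem hrT] at hPc
      have h2 : (T.card - 1) * (k - 1) ≤ (k - 1) * (k - 1) :=
        Nat.mul_le_mul_right _ (by omega)
      obtain ⟨j, rfl⟩ : ∃ j, k = j + 1 := ⟨k - 1, by omega⟩
      simp only [Nat.add_sub_cancel] at *
      nlinarith
    · intro p hp
      rcases mem_union.1 hp with hp | hp
      · exact hPne p hp
      · obtain ⟨y, hy, rfl⟩ := mem_image.1 hp
        intro h
        simp only at h
        subst h
        exact hrB hy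
    · intro A hA
      by_cases hrA : r ∈ A
      · obtain ⟨y, hy⟩ := hint A hA B hB
        rw [mem_inter] at hy
        exact ⟨(r, y), mem_union_right _ (mem_image.2 ⟨y, hy.2, rfl⟩), hrA, hy.1⟩
      · obtain ⟨p, hp, hp'⟩ := hP A hA (by
          rw [Finset.disjoint_left]
          intro y hyA hy
          rw [mem_sdiff] at hy
          have : y = r := by
            by_contra hne
            exact hy.2 (mem_erase.2 ⟨hne, hy.1⟩)
          subst this
          exact hrA hyA)
        exact ⟨p, mem_union_left _ hp, hp'⟩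
  · push Not at hB
    refine ⟨(univ.erase r).image (fun y => (r, y)), ?_, ?_, ?_⟩
    · refine card_image_le.trans ?_
      rw [card_erase_of_mem (mem_univ r), card_univ, Fintype.card_fin]
      omega
    · intro p hp
      obtain ⟨y, hy, rfl⟩ := mem_image.1 hp
      exact (ne_of_mem_erase hy).symm
    · intro A hA
      have hcard : 1 < A.card := by rw [hk A hA]; omega
      obtain ⟨y, hyA, hyr⟩ := Finset.exists_mem_ne hcard r
      exact ⟨(r, y), mem_image.2 ⟨y, mem_erase.2 ⟨hyr, mem_univ y⟩, rfl⟩, hB A hA, hyA⟩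

/-- From weighted pairs to weighted 2-intersecting subfamilies. -/
theorem of_pairs (n : ℕ) (F : Finset (Finset (Fin n))) (P : Finset (Fin n × Fin n)) (c : ℝ)
    (hc : 0 ≤ c) (hne : ∀ p ∈ P, p.1 ≠ p.2) (hsum : c * P.card ≤ n)
    (hcov : ∀ A ∈ F, 1 ≤ c * (P.filter (fun p => p.1 ∈ A ∧ p.2 ∈ A)).card) :
    ∃ w : Finset (Finset (Fin n)) → ℝ,
      (∀ G, 0 ≤ w G) ∧
      (∀ G, w G ≠ 0 → G ⊆ F ∧ ∀ A ∈ G, ∀ B ∈ G, A ≠ B → 2 ≤ (A ∩ B).card) ∧
      (∑ G, w G ≤ n) ∧
      ∀ A ∈ F, 1 ≤ ∑ G with A ∈ G, w G := by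
  classical
  set cls : Fin n × Fin n → Finset (Finset (Fin n)) :=
    fun p => F.filter (fun A => p.1 ∈ A ∧ p.2 ∈ A) with hcls
  refine ⟨fun G => ∑ p ∈ P, if cls p = G then c else 0, ?_, ?_, ?_, ?_⟩
  · intro G
    exact sum_nonneg fun p _ => by split_ifs <;> simp [hc]
  · intro G hG
    obtain ⟨p, hp, hpG⟩ := exists_ne_zero_of_sum_ne_zero hG
    have hG' : cls p = G := by
      by_contra h
      simp [h] at hpG
    subst hG'
    refine ⟨filter_subset _ _, ?_⟩
    intro A hA B hB _
    simp only [hcls, mem_filter] at hA hB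
    calc 2 = ({p.1, p.2} : Finset (Fin n)).card := (card_pair (hne p hp)).symm
      _ ≤ (A ∩ B).card := by
        apply card_le_card
        intro x hx
        rcases mem_insert.1 hx with rfl | hx
        · exact mem_inter.2 ⟨hA.2.1, hB.2.1⟩
        · rw [mem_singleton] at hx
          subst hx
          exact mem_inter.2 ⟨hA.2.2, hB.2.2⟩
  · rw [sum_comm]
    simp only [sum_ite_eq, mem_univ, if_true]
    rw [sum_const, nsmul_eq_mul, mul_comm]
    exact hsum
  · intro A hA
    rw [sum_comm]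
    have : ∀ p ∈ P, (∑ G with A ∈ G, if cls p = G then c else 0)
        = if (p.1 ∈ A ∧ p.2 ∈ A) then c else 0 := by
      intro p _
      rw [sum_ite_eq]
      have : (cls p ∈ ({G | A ∈ G} : Finset (Finset (Finset (Fin n))))) ↔ (p.1 ∈ A ∧ p.2 ∈ A) := by
        simp [hcls, hA]
      by_cases h : p.1 ∈ A ∧ p.2 ∈ A
      · rw [if_pos (this.2 h), if_pos h]
      · rw [if_neg (fun h' => h (this.1 h')), if_neg h]
    rw [sum_congr rfl this, ← sum_filter, sum_const, nsmul_eq_mul, mul_comm]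
    exact hcov A hA

/-- The fractional form of Larman's conjecture for `t = 1`, with bound `n`. -/
theorem result (n k : ℕ) (F : Finset (Finset (Fin n)))
    (hk : ∀ A ∈ F, A.card = k)
    (hint : ∀ A ∈ F, ∀ B ∈ F, (A ∩ B).Nonempty) :
    ∃ w : Finset (Finset (Fin n)) → ℝ,
      (∀ G, 0 ≤ w G) ∧
      (∀ G, w G ≠ 0 → G ⊆ F ∧ ∀ A ∈ G, ∀ B ∈ G, A ≠ B → 2 ≤ (A ∩ B).card) ∧
      (∑ G, w G ≤ n) ∧
      ∀ A ∈ F, 1 ≤ ∑ G with A ∈ G, w G := by
  classical
  rcases F.eq_empty_or_nonempty with rfl | ⟨A₀, hA₀⟩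
  · exact ⟨fun _ => 0, by simp, by simp, by simp, by simp⟩
  have hAne : A₀.Nonempty := by simpa using hint A₀ hA₀ A₀ hA₀
  have hk1 : 1 ≤ k := by
    rw [← hk A₀ hA₀]
    exact Finset.card_pos.2 hAne
  have hkn : k ≤ n := by
    rw [← hk A₀ hA₀]
    simpa using card_le_univ A₀
  rcases Nat.lt_or_ge k 2 with hlt | hk2
  · -- `k = 1`
    obtain rfl : k = 1 := by omega
    refine ⟨fun G => if G = F then 1 else 0, ?_, ?_, ?_, ?_⟩
    · intro G
      dsimp only
      split_ifs <;> simp
    · intro G hG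
      have : G = F := by
        by_contra h
        simp [h] at hG
      subst this
      refine ⟨subset_rfl, ?_⟩
      intro A hA B hB hAB
      exfalso
      apply hAB
      obtain ⟨x, hx⟩ := hint A hA B hB
      rw [mem_inter] at hx
      obtain ⟨a, ha⟩ := Finset.card_eq_one.1 (hk A hA)
      obtain ⟨b, hb⟩ := Finset.card_eq_one.1 (hk B hB)
      rw [ha, hb] at hx
      rw [ha, hb, ← mem_singleton.1 hx.1, ← mem_singleton.1 hx.2]
    · rw [sum_ite_eq' univ F]
      simp only [mem_univ, if_true]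
      exact_mod_cast hkn
    · intro A hA
      rw [sum_ite_eq']
      simp [hA]
  rcases Nat.lt_or_ge (k * (k - 1) + 1) n with hlt | hle
  · obtain ⟨P, hPc, hPne, hP⟩ := exists_pairs n k F hk2 hk hint hlt.le
    refine of_pairs n F P 1 (by norm_num) hPne (by simpa using hPc) ?_
    intro A hA
    obtain ⟨p, hp, hp'⟩ := hP A hA
    rw [one_mul]
    have : 0 < (P.filter (fun p => p.1 ∈ A ∧ p.2 ∈ A)).card :=
      Finset.card_pos.2 ⟨p, mem_filter.2 ⟨hp, hp'⟩⟩
    exact_mod_cast this
  · -- uniform weights on all ordered pairs of distinct points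
    have hkpos : (0 : ℝ) < (k : ℝ) * (k - 1) := by
      have : (2 : ℝ) ≤ k := by exact_mod_cast hk2
      nlinarith
    refine of_pairs n F univ.offDiag (1 / ((k : ℝ) * (k - 1))) (by positivity) ?_ ?_ ?_
    · intro p hp
      exact (mem_offDiag.1 hp).2.2
    · rw [offDiag_card, card_univ, Fintype.card_fin]
      have h1 : ((n * n - n : ℕ) : ℝ) = (n : ℝ) * (n - 1) := by
        rw [Nat.cast_sub (Nat.le_mul_self n)]
        push_cast
        ring
      rw [h1, div_mul_eq_mul_div, one_mul, div_le_iff₀ hkpos]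
      have h2 : (n : ℝ) ≤ k * (k - 1) + 1 := by
        have h3 : ((k * (k - 1) + 1 : ℕ) : ℝ) = (k : ℝ) * (k - 1) + 1 := by
          rw [Nat.cast_add, Nat.cast_mul, Nat.cast_sub hk1]
          simp
        rw [← h3]
        exact_mod_cast hle
      have h4 : (0 : ℝ) ≤ n := Nat.cast_nonneg n
      nlinarith
    · intro A hA
      have : (univ.offDiag.filter (fun p : Fin n × Fin n => p.1 ∈ A ∧ p.2 ∈ A)) = A.offDiag := by
        ext p
        simp only [mem_filter, mem_offDiag, mem_univ, true_and]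
        tauto
      rw [this, offDiag_card, hk A hA]
      have h1 : ((k * k - k : ℕ) : ℝ) = (k : ℝ) * (k - 1) := by
        rw [Nat.cast_sub (Nat.le_mul_self k)]
        push_cast
        ring
      rw [h1, div_mul_eq_mul_div, one_mul, div_self hkpos.ne']

end Pool.Agent.Results.MP_a9ba8c_co.Fractional
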