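import Mathlib

set_option autoImplicit false

namespace Pool.Agent.Results.MP_a9ba8c_co.Ranges

open Finset

/-- Exploring a cover `T` of `F` no proper subset of which is a cover, starting from a part `Z₀`
that is already dealt with by the pairs in `P₀`. -/
theorem explore {V : Type*} [DecidableEq V] (F : Finset (Finset V)) (T Z₀ : Finset V)
    (P₀ : Finset (V × V)) (k : ℕ)
    (hk : ∀ A ∈ F, A.card = k) (hint : ∀ A ∈ F, ∀ B ∈ F, (A ∩ B).Nonempty)
    (hT : ∀ A ∈ F, (A ∩ T).Nonempty) (hmin : ∀ Z, Z ⊂ T → ∃ B ∈ F, Disjoint B Z)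
    (hP₀ne : ∀ p ∈ P₀, p.1 ≠ p.2)
    (hP₀ : ∀ A ∈ F, Disjoint A (T \ Z₀) → ∃ p ∈ P₀, p.1 ∈ A ∧ p.2 ∈ A) :
    ∀ W : Finset V, Z₀ ∪ W ⊂ T → ∃ P : Finset (V × V),
      P.card ≤ P₀.card + W.card * (k - 1) ∧ (∀ p ∈ P, p.1 ≠ p.2) ∧
      ∀ A ∈ F, Disjoint A (T \ (Z₀ ∪ W)) → ∃ p ∈ P, p.1 ∈ A ∧ p.2 ∈ A := by
  intro W
  induction W using Finset.induction_on with
  | empty =>
    intro _
    exact ⟨P₀, by simp, hP₀ne, by simpa using hP₀⟩
  | insert x W hxW ih =>
    intro hZT
    have hxT : x ∈ T := hZT.1 (mem_union_right _ (mem_insert_self x W))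
    have hsub : Z₀ ∪ W ⊂ T := by
      refine lt_of_le_of_lt ?_ hZT
      exact union_subset_union_right (subset_insert x W)
    obtain ⟨P, hPc, hPne, hP⟩ := ih hsub
    obtain ⟨B, hB, hBZ⟩ := hmin _ hZT
    have hxB : x ∉ B := fun h =>
      (Finset.disjoint_left.1 hBZ h) (mem_union_right _ (mem_insert_self x W))
    refine ⟨P ∪ (B \ T).image (fun y => (x, y)), ?_, ?_, ?_⟩
    · have h1 : (B \ T).card + (B ∩ T).card = k := by
        rw [Finset.card_sdiff_add_card_inter, hk B hB]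
      have h2 : 0 < (B ∩ T).card := Finset.card_pos.2 (hT B hB)
      calc (P ∪ (B \ T).image (fun y => (x, y))).card
          ≤ P.card + ((B \ T).image (fun y => (x, y))).card := card_union_le _ _
        _ ≤ P₀.card + W.card * (k - 1) + (k - 1) := by
            have := (card_image_le (s := B \ T) (f := fun y => (x, y)))
            omega
        _ = P₀.card + (insert x W).card * (k - 1) := by
            rw [card_insert_of_notMem hxW]; ring
    · intro p hp
      rcases mem_union.1 hp with hp | hp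
      · exact hPne p hp
      · obtain ⟨y, hy, rfl⟩ := mem_image.1 hp
        intro h
        simp only at h
        subst h
        exact hxB (mem_sdiff.1 hy).1
    · intro A hA hdis
      by_cases hxA : x ∈ A
      · obtain ⟨y, hy⟩ := hint A hA B hB
        rw [mem_inter] at hy
        have hyT : y ∉ T := by
          intro hyT
          have h1 : y ∉ Z₀ ∪ insert x W := Finset.disjoint_left.1 hBZ hy.2
          exact (Finset.disjoint_left.1 hdis hy.1) (mem_sdiff.2 ⟨hyT, h1⟩)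
        exact ⟨(x, y), mem_union_right _ (mem_image.2 ⟨y, mem_sdiff.2 ⟨hy.2, hyT⟩, rfl⟩),
          hxA, hy.1⟩
      · have : Disjoint A (T \ (Z₀ ∪ W)) := by
          rw [Finset.disjoint_left]
          intro y hyA hy
          rw [mem_sdiff] at hy
          refine (Finset.disjoint_left.1 hdis hyA) (mem_sdiff.2 ⟨hy.1, ?_⟩)
          intro h
          rcases mem_union.1 h with h | h
          · exact hy.2 (mem_union_left _ h)
          rcases mem_insert.1 h with rfl | h
          · exact hxA hyA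
          · exact hy.2 (mem_union_right _ h)
        obtain ⟨p, hp, hp'⟩ := hP A hA this
        exact ⟨p, mem_union_left _ hp, hp'⟩

/-- The number of pairs needed when a minimal cover `T` is explored completely. -/
theorem finish (n k : ℕ) (F : Finset (Finset (Fin n))) (T Z₀ : Finset (Fin n))
    (P₀ : Finset (Fin n × Fin n)) (hk2 : 2 ≤ k)
    (hk : ∀ A ∈ F, A.card = k) (hint : ∀ A ∈ F, ∀ B ∈ F, (A ∩ B).Nonempty)
    (hT : ∀ A ∈ F, (A ∩ T).Nonempty) (hmin : ∀ Z, Z ⊂ T → ∃ B ∈ F, Disjoint B Z)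
    (hP₀ne : ∀ p ∈ P₀, p.1 ≠ p.2)
    (hP₀ : ∀ A ∈ F, Disjoint A (T \ Z₀) → ∃ p ∈ P₀, p.1 ∈ A ∧ p.2 ∈ A)
    (hZ₀ : Z₀ ⊂ T) (hn : P₀.card + (T.card - Z₀.card - 1) * (k - 1) + k ≤ n) :
    ∃ P : Finset (Fin n × Fin n), P.card ≤ n ∧ (∀ p ∈ P, p.1 ≠ p.2) ∧
      ∀ A ∈ F, ∃ p ∈ P, p.1 ∈ A ∧ p.2 ∈ A := by
  obtain ⟨r, hrT, hrZ⟩ := Finset.exists_of_ssubset hZ₀
  by_cases hB : ∃ B ∈ F, r ∉ B
  · obtain ⟨B, hB, hrB⟩ := hB
    have hTr : Z₀ ∪ ((T \ Z₀).erase r) = T.erase r := by
      ext y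
      simp only [mem_union, mem_erase, mem_sdiff]
      constructor
      · rintro (h | h)
        · exact ⟨fun h' => hrZ (h' ▸ h), hZ₀.1 h⟩
        · exact ⟨h.1, h.2.1⟩
      · rintro ⟨h1, h2⟩
        by_cases h : y ∈ Z₀
        · exact Or.inl h
        · exact Or.inr ⟨h1, h2, h⟩
    obtain ⟨P, hPc, hPne, hP⟩ := explore F T Z₀ P₀ k hk hint hT hmin hP₀ne hP₀
      ((T \ Z₀).erase r) (by rw [hTr]; exact erase_ssubset hrT)
    rw [hTr] at hP
    refine ⟨P ∪ B.image (fun y => (r, y)), ?_, ?_, ?_⟩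
    · have h1 : (P ∪ B.image (fun y => (r, y))).card ≤ P.card + B.card :=
        (card_union_le _ _).trans (Nat.add_le_add_left card_image_le _)
      rw [hk B hB] at h1
      have h2 : ((T \ Z₀).erase r).card = T.card - Z₀.card - 1 := by
        rw [card_erase_of_mem (mem_sdiff.2 ⟨hrT, hrZ⟩), card_sdiff_of_subset hZ₀.1]
      rw [h2] at hPc
      omega
    · intro p hp
      rcases mem_union.1 hp with hp | hp
      · exact hPne p hp
      · obtain ⟨y, hy, rfl⟩ := mem_image.1 hp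
        intro h
        simp only at h
        subst h
        exact hrB hy
    · intro A hA
      by_cases hrA : r ∈ A
      · obtain ⟨y, hy⟩ := hint A hA B hB
        rw [mem_inter] at hy
        exact ⟨(r, y), mem_union_right _ (mem_image.2 ⟨y, hy.2, rfl⟩), hrA, hy.1⟩
      · obtain ⟨p, hp, hp'⟩ := hP A hA (by
          rw [Finset.disjoint_left]
          intro y hyA hy
          rw [mem_sdiff] at hy
          have : y = r := by
            by_contra hne
            exact hy.2 (mem_erase.2 ⟨hne, hy.1⟩)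
          subst this
          exact hrA hyA)
        exact ⟨p, mem_union_left _ hp, hp'⟩
  · push Not at hB
    refine ⟨(univ.erase r).image (fun y => (r, y)), ?_, ?_, ?_⟩
    · refine card_image_le.trans ?_
      rw [card_erase_of_mem (mem_univ r), card_univ, Fintype.card_fin]
      omega
    · intro p hp
      obtain ⟨y, hy, rfl⟩ := mem_image.1 hp
      exact (ne_of_mem_erase hy).symm
    · intro A hA
      have hcard : 1 < A.card := by rw [hk A hA]; omega
      obtain ⟨y, hyA, hyr⟩ := Finset.exists_mem_ne hcard r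
      exact ⟨(r, y), mem_image.2 ⟨y, mem_erase.2 ⟨hyr, mem_univ y⟩, rfl⟩, hB A hA, hyA⟩

/-- Two members meeting in at least two points: few pairs suffice. -/
theorem exists_pairs (n k : ℕ) (F : Finset (Finset (Fin n))) (hk2 : 2 ≤ k)
    (hk : ∀ A ∈ F, A.card = k) (hint : ∀ A ∈ F, ∀ B ∈ F, (A ∩ B).Nonempty)
    (hn : (k - 1) ^ 2 + 2 ≤ n) (A₀ B₀ : Finset (Fin n)) (hA₀ : A₀ ∈ F) (hB₀ : B₀ ∈ F)
    (hne : A₀ ≠ B₀) (hAB : 2 ≤ (A₀ ∩ B₀).card) :
    ∃ P : Finset (Fin n × Fin n), P.card ≤ n ∧ (∀ p ∈ P, p.1 ≠ p.2) ∧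
      ∀ A ∈ F, ∃ p ∈ P, p.1 ∈ A ∧ p.2 ∈ A := by
  -- a minimal cover inside `A₀`
  have hcov : (A₀.powerset.filter (fun T => ∀ A ∈ F, (A ∩ T).Nonempty)).Nonempty :=
    ⟨A₀, by simpa using fun A hA => hint A hA A₀ hA₀⟩
  obtain ⟨T, hTm, hTmin⟩ := Finset.exists_min_image _ Finset.card hcov
  rw [mem_filter, mem_powerset] at hTm
  obtain ⟨hTA, hT⟩ := hTm
  have hTk : T.card ≤ k := (card_le_card hTA).trans (hk A₀ hA₀).le
  have hmin : ∀ Z, Z ⊂ T → ∃ B ∈ F, Disjoint B Z := by
    intro Z hZ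
    by_contra hcon
    push Not at hcon
    have hZc : ∀ A ∈ F, (A ∩ Z).Nonempty := by
      intro A hA
      have := hcon A hA
      rwa [Finset.not_disjoint_iff_nonempty_inter] at this
    have := hTmin Z (by
      rw [mem_filter, mem_powerset]
      exact ⟨hZ.1.trans hTA, hZc⟩)
    exact absurd (card_lt_card hZ) (not_lt.2 this)
  obtain ⟨r, hr⟩ := hT A₀ hA₀
  have hrT : r ∈ T := (mem_inter.1 hr).2
  obtain ⟨j, rfl⟩ : ∃ j, k = j + 1 := ⟨k - 1, by omega⟩
  simp only [Nat.add_sub_cancel] at hn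
  rcases hTk.lt_or_eq with hlt | heq
  · -- a proper subset of `A₀` is a cover
    refine finish n (j + 1) F T ∅ ∅ hk2 hk hint hT hmin (by simp) ?_ ?_ ?_
    · intro A hA hdis
      exfalso
      obtain ⟨x, hx⟩ := hT A hA
      rw [mem_inter] at hx
      rw [sdiff_empty] at hdis
      exact (Finset.disjoint_left.1 hdis hx.1) hx.2
    · exact ⟨empty_subset _, fun h => by simpa using h hrT⟩
    · simp only [card_empty, Nat.sub_zero, Nat.add_sub_cancel, Nat.zero_add]
      have h2 : (T.card - 1) * j ≤ (j - 1) * j := Nat.mul_le_mul_right _ (by omega)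
      obtain ⟨i, rfl⟩ : ∃ i, j = i + 1 := ⟨j - 1, by omega⟩
      simp only [Nat.add_sub_cancel] at h2
      nlinarith
  · -- `A₀` is a minimal cover
    have hTA₀ : T = A₀ := eq_of_subset_of_card_le hTA (by rw [heq, hk A₀ hA₀])
    subst hTA₀
    have hbk : (T ∩ B₀).card < j + 1 := by
      rw [← hk T hA₀]
      refine card_lt_card ⟨inter_subset_left, fun h => hne ?_⟩
      exact eq_of_subset_of_card_le (h.trans inter_subset_right) (by rw [hk T hA₀, hk B₀ hB₀])
    have hc1 : (T \ B₀).card + (T ∩ B₀).card = j + 1 := by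
      rw [card_sdiff_add_card_inter, hk T hA₀]
    have hc2 : (B₀ \ T).card + (T ∩ B₀).card = j + 1 := by
      rw [inter_comm, card_sdiff_add_card_inter, hk B₀ hB₀]
    refine finish n (j + 1) F T (T \ B₀) ((T \ B₀) ×ˢ (B₀ \ T)) hk2 hk hint hT hmin ?_ ?_ ?_ ?_
    · rintro ⟨x, y⟩ hp
      rw [mem_product, mem_sdiff, mem_sdiff] at hp
      intro h
      simp only at h hp
      subst h
      exact hp.1.2 hp.2.1
    · intro A hA hdis
      obtain ⟨x, hx⟩ := hT A hA
      obtain ⟨y, hy⟩ := hint A hA B₀ hB₀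
      rw [mem_inter] at hx hy
      have hxB : x ∉ B₀ := by
        intro h
        exact (Finset.disjoint_left.1 hdis hx.1) (mem_sdiff.2 ⟨hx.2, fun h' =>
          (mem_sdiff.1 h').2 h⟩)
      have hyT : y ∉ T := by
        intro h
        exact (Finset.disjoint_left.1 hdis hy.1) (mem_sdiff.2 ⟨h, fun h' =>
          (mem_sdiff.1 h').2 hy.2⟩)
      exact ⟨(x, y), mem_product.2 ⟨mem_sdiff.2 ⟨hx.2, hxB⟩, mem_sdiff.2 ⟨hy.2, hyT⟩⟩,
        hx.1, hy.1⟩
    · refine ⟨sdiff_subset, fun h => ?_⟩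
      have : (T ∩ B₀).Nonempty := card_pos.1 (by omega)
      obtain ⟨z, hz⟩ := this
      rw [mem_inter] at hz
      exact (mem_sdiff.1 (h hz.1)).2 hz.2
    · rw [card_product, hk T hA₀, Nat.add_sub_cancel]
      obtain ⟨i, hi⟩ : ∃ i, (T ∩ B₀).card = i + 2 := ⟨(T ∩ B₀).card - 2, by omega⟩
      obtain ⟨l, hl⟩ : ∃ l, j = i + 2 + l := ⟨j - (i + 2), by omega⟩
      have e1 : (T \ B₀).card = l + 1 := by omega
      have e2 : (B₀ \ T).card = l + 1 := by omega
      rw [e1, e2]
      subst hl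
      have e3 : i + 2 + l + 1 - (l + 1) - 1 = i + 1 := by omega
      rw [e3]
      nlinarith

/-- Fisher's inequality for families any two members of which meet in exactly one point. -/
theorem fisher (n k : ℕ) (F : Finset (Finset (Fin n))) (hk2 : 2 ≤ k)
    (hk : ∀ A ∈ F, A.card = k) (hint : ∀ A ∈ F, ∀ B ∈ F, A ≠ B → (A ∩ B).card = 1) :
    F.card ≤ n := by
  classical
  have hli : LinearIndependent ℝ (fun (A : F) (x : Fin n) => if x ∈ A.1 then (1 : ℝ) else 0) := by
    rw [Fintype.linearIndependent_iff]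
    intro g hg
    have h0 : ∀ x : Fin n, ∑ A : F, g A * (if x ∈ A.1 then (1 : ℝ) else 0) = 0 := by
      intro x
      have := congrFun hg x
      simpa [Finset.sum_apply] using this
    have h1 : ∑ x : Fin n, (∑ A : F, g A * (if x ∈ A.1 then (1 : ℝ) else 0)) *
        (∑ B : F, g B * (if x ∈ B.1 then (1 : ℝ) else 0)) = 0 :=
      sum_eq_zero fun x _ => by rw [h0 x, zero_mul]
    have h2 : ∑ x : Fin n, (∑ A : F, g A * (if x ∈ A.1 then (1 : ℝ) else 0)) *
        (∑ B : F, g B * (if x ∈ B.1 then (1 : ℝ) else 0))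
        = ∑ A : F, ∑ B : F, g A * g B * ((A.1 ∩ B.1).card : ℝ) := by
      simp_rw [Finset.sum_mul_sum]
      rw [sum_comm]
      refine sum_congr rfl fun A _ => ?_
      rw [sum_comm]
      refine sum_congr rfl fun B _ => ?_
      have : ((A.1 ∩ B.1).card : ℝ) = ∑ x : Fin n, (if x ∈ A.1 then (1 : ℝ) else 0) *
          (if x ∈ B.1 then (1 : ℝ) else 0) := by
        rw [card_eq_sum_ones, Nat.cast_sum]
        rw [← sum_filter_add_sum_filter_not univ (fun x => x ∈ A.1 ∩ B.1)]
        have e1 : ∑ x ∈ univ.filter (fun x => x ∉ A.1 ∩ B.1), (if x ∈ A.1 then (1 : ℝ) else 0) *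
          (if x ∈ B.1 then (1 : ℝ) else 0) = 0 := by
          refine sum_eq_zero fun x hx => ?_
          simp only [mem_filter, mem_univ, true_and, mem_inter, not_and] at hx
          by_cases h : x ∈ A.1
          · simp [h, hx h]
          · simp [h]
        rw [e1, add_zero]
        have e2 : (univ.filter (fun x => x ∈ A.1 ∩ B.1)) = A.1 ∩ B.1 := by ext; simp
        rw [e2]
        refine sum_congr rfl fun x hx => ?_
        rw [mem_inter] at hx
        simp [hx.1, hx.2]
      rw [this, mul_sum]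
      refine sum_congr rfl fun x _ => ?_
      ring
    have h3 : ∀ A B : F, ((A.1 ∩ B.1).card : ℝ) = 1 + (if A = B then ((k : ℝ) - 1) else 0) := by
      intro A B
      by_cases h : A = B
      · subst h
        simp [hk A.1 A.2]
      · have : A.1 ≠ B.1 := fun h' => h (Subtype.ext h')
        rw [hint A.1 A.2 B.1 B.2 this]
        simp [h]
    rw [h2] at h1
    have h4 : ∑ A : F, ∑ B : F, g A * g B * ((A.1 ∩ B.1).card : ℝ)
        = (∑ A : F, g A) ^ 2 + ((k : ℝ) - 1) * ∑ A : F, g A ^ 2 := by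
      simp_rw [h3, mul_add, mul_one, sum_add_distrib, mul_ite, mul_zero, sum_ite_eq]
      rw [sq, Finset.sum_mul_sum, mul_sum]
      congr 1
      refine sum_congr rfl fun A _ => ?_
      simp
      ring
    rw [h4] at h1
    have hk' : (0 : ℝ) < (k : ℝ) - 1 := by
      have : (2 : ℝ) ≤ k := by exact_mod_cast hk2
      linarith
    have h5 : ∑ A : F, g A ^ 2 = 0 := by
      have h6 : 0 ≤ ∑ A : F, g A ^ 2 := sum_nonneg fun _ _ => sq_nonneg _
      have h7 : 0 ≤ (∑ A : F, g A) ^ 2 := sq_nonneg _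
      nlinarith
    intro A
    have := (sum_eq_zero_iff_of_nonneg (fun _ _ => sq_nonneg _)).1 h5 A (mem_univ A)
    exact pow_eq_zero_iff (two_ne_zero) |>.1 this
  have := hli.fintype_card_le_finrank
  simpa using this

/-- From few pairs to few 2-intersecting subfamilies. -/
theorem of_pairs (n : ℕ) (F : Finset (Finset (Fin n)))
    (h : ∃ P : Finset (Fin n × Fin n), P.card ≤ n ∧ (∀ p ∈ P, p.1 ≠ p.2) ∧
      ∀ A ∈ F, ∃ p ∈ P, p.1 ∈ A ∧ p.2 ∈ A) :
    ∃ G : Fin n → Finset (Finset (Fin n)),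
      (∀ i, G i ⊆ F) ∧
      (∀ i, ∀ A ∈ G i, ∀ B ∈ G i, A ≠ B → 2 ≤ (A ∩ B).card) ∧
      (∀ A ∈ F, ∃ i, A ∈ G i) := by
  classical
  obtain ⟨P, hPn, hne, hP⟩ := h
  have hcard : Fintype.card P ≤ Fintype.card (Fin n) := by simpa using hPn
  obtain ⟨e⟩ := Function.Embedding.nonempty_of_card_le hcard
  refine ⟨fun i => F.filter (fun A => ∃ p : P, e p = i ∧ p.1.1 ∈ A ∧ p.1.2 ∈ A), ?_, ?_, ?_⟩
  · intro i
    exact filter_subset _ _
  · intro i A hA B hB _
    simp only [mem_filter] at hA hB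
    obtain ⟨_, p, hp, hpA⟩ := hA
    obtain ⟨_, q, hq, hqB⟩ := hB
    have : p = q := e.injective (hp.trans hq.symm)
    subst this
    calc 2 = ({p.1.1, p.1.2} : Finset (Fin n)).card := (card_pair (hne p.1 p.2)).symm
      _ ≤ (A ∩ B).card := by
        apply card_le_card
        intro x hx
        rcases mem_insert.1 hx with rfl | hx
        · exact mem_inter.2 ⟨hpA.1, hqB.1⟩
        · rw [mem_singleton] at hx
          subst hx
          exact mem_inter.2 ⟨hpA.2, hqB.2⟩
  · intro A hA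
    obtain ⟨p, hp, hp'⟩ := hP A hA
    exact ⟨e ⟨p, hp⟩, mem_filter.2 ⟨hA, ⟨p, hp⟩, rfl, hp'⟩⟩

/-- Larman's conjecture for `t = 1` holds for all `n ≤ 3 (k - 1)` and all `n ≥ (k - 1) ^ 2 + 2`. -/
theorem result (n k : ℕ) (hnk : n ≤ 3 * (k - 1) ∨ (k - 1) ^ 2 + 2 ≤ n)
    (F : Finset (Finset (Fin n)))
    (hk : ∀ A ∈ F, A.card = k)
    (hint : ∀ A ∈ F, ∀ B ∈ F, (A ∩ B).Nonempty) :
    ∃ G : Fin n → Finset (Finset (Fin n)),
      (∀ i, G i ⊆ F) ∧
      (∀ i, ∀ A ∈ G i, ∀ B ∈ G i, A ≠ B → 2 ≤ (A ∩ B).card) ∧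
      (∀ A ∈ F, ∃ i, A ∈ G i) := by
  classical
  rcases F.eq_empty_or_nonempty with rfl | ⟨A₀, hA₀⟩
  · exact ⟨fun _ => ∅, by simp, by simp, by simp⟩
  have hAne : A₀.Nonempty := by simpa using hint A₀ hA₀ A₀ hA₀
  have hk1 : 1 ≤ k := by
    rw [← hk A₀ hA₀]
    exact Finset.card_pos.2 hAne
  have hkn : k ≤ n := by
    rw [← hk A₀ hA₀]
    simpa using card_le_univ A₀
  rcases hnk with hnk | hnk
  · -- blocks of three consecutive points
    refine of_pairs n F ⟨(univ : Finset (Fin n × Fin n)).filter (fun p =>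
      p.2.1 = 3 * (p.1.1 / 3) + (p.1.1 % 3 + 1) % 3 ∨
        (p.1.1 < p.2.1 ∧ p.1.1 / 3 = p.2.1 / 3 ∧ n ≤ 3 * (p.1.1 / 3) + 2)), ?_, ?_, ?_⟩
    · -- the first coordinate is injective on this set
      calc _ ≤ (univ : Finset (Fin n)).card := by
            refine card_le_card_of_injOn (fun p => p.1) (fun _ _ => mem_univ _) ?_
            rintro ⟨x, y⟩ hp ⟨x', y'⟩ hp' (h : x = x')
            subst h
            simp only [coe_filter, mem_univ, true_and, Set.mem_ofPred_eq] at hp hp'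
            have hy := y.2
            have hy' := y'.2
            have hx := x.2
            congr 1
            apply Fin.ext
            omega
        _ = n := by simp
    · rintro ⟨x, y⟩ hp h
      simp only [mem_filter, mem_univ, true_and] at hp h
      subst h
      omega
    · intro A hA
      have hmaps : ∀ x ∈ A, x.1 / 3 ∈ range (k - 1) := by
        intro x _
        rw [mem_range]
        have := x.2
        omega
      obtain ⟨x, hx, y, hy, hxy, hxy'⟩ := Finset.exists_ne_map_eq_of_card_lt_of_maps_to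
        (by rw [card_range, hk A hA]; omega) hmaps
      have hxy'' : x.1 ≠ y.1 := fun h => hxy (Fin.ext h)
      have hx2 := x.2
      have hy2 := y.2
      by_cases hc : y.1 = 3 * (x.1 / 3) + (x.1 % 3 + 1) % 3
      · exact ⟨(x, y), by simp [hc], hx, hy⟩
      · refine ⟨(y, x), ?_, hy, hx⟩
        simp only [mem_filter, mem_univ, true_and]
        omega
  rcases Nat.lt_or_ge k 2 with hlt | hk2
  · -- `k = 1`
    obtain rfl : k = 1 := by omega
    refine ⟨fun _ => F, fun _ => subset_rfl, ?_, ?_⟩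
    · intro _ A hA B hB hAB
      exfalso
      apply hAB
      obtain ⟨x, hx⟩ := hint A hA B hB
      rw [mem_inter] at hx
      obtain ⟨a, ha⟩ := Finset.card_eq_one.1 (hk A hA)
      obtain ⟨b, hb⟩ := Finset.card_eq_one.1 (hk B hB)
      rw [ha, hb] at hx
      rw [ha, hb, ← mem_singleton.1 hx.1, ← mem_singleton.1 hx.2]
    · intro A hA
      exact ⟨⟨0, by omega⟩, hA⟩
  by_cases hlin : ∃ A ∈ F, ∃ B ∈ F, A ≠ B ∧ 2 ≤ (A ∩ B).card
  · obtain ⟨A, hA, B, hB, hAB, hAB2⟩ := hlin
    exact of_pairs n F (exists_pairs n k F hk2 hk hint hnk A B hA hB hAB hAB2)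
  · -- any two members meet in exactly one point
    push Not at hlin
    have hF : F.card ≤ n := by
      refine fisher n k F hk2 hk ?_
      intro A hA B hB hAB
      have h1 := hlin A hA B hB hAB
      have h2 : 0 < (A ∩ B).card := card_pos.2 (hint A hA B hB)
      omega
    have hcard : Fintype.card F ≤ Fintype.card (Fin n) := by simpa using hF
    obtain ⟨e⟩ := Function.Embedding.nonempty_of_card_le hcard
    refine ⟨fun i => F.filter (fun A => ∃ a : F, e a = i ∧ a.1 = A), ?_, ?_, ?_⟩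
    · intro i
      exact filter_subset _ _
    · intro i A hA B hB hAB
      simp only [mem_filter] at hA hB
      obtain ⟨_, p, hp, hpA⟩ := hA
      obtain ⟨_, q, hq, hqB⟩ := hB
      have : p = q := e.injective (hp.trans hq.symm)
      subst this
      exact absurd (hpA.symm.trans hqB) hAB
    · intro A hA
      exact ⟨e ⟨A, hA⟩, mem_filter.2 ⟨hA, ⟨A, hA⟩, rfl, rfl⟩⟩

end Pool.Agent.Results.MP_a9ba8c_co.Ranges
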